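import Pool.Agent.Q123.Sdef

set_option autoImplicit false

namespace Pool.Agent.Results.MP_2a0133_al.NotUnimodal

open MvPolynomial Pool.Agent.Q123

/-- the facet ideal of `Δ^[i]`, the complex whose facets are the `i`-dimensional faces of `Δ` -/
noncomputable def facetIdeal {n : ℕ} (K : Type*) [Field K] (Δ : Set (Finset (Fin n))) (i : ℕ) :
    Ideal (MvPolynomial (Fin n) K) :=
  setIdeal K {F | F ∈ Δ ∧ F.card = i + 1}

/-- `Δ` is a simplicial complex of dimension `d` on the vertex set `Fin n` -/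
def IsComplex {n : ℕ} (Δ : Set (Finset (Fin n))) (d : ℕ) : Prop :=
  (∀ v, {v} ∈ Δ) ∧ (∀ F ∈ Δ, ∀ G ⊆ F, G ∈ Δ) ∧ IsGreatest {e | ∃ F ∈ Δ, F.card = e + 1} d

/-- the sequence `a 1, …, a p` is unimodal -/
def Unimodal (a : ℕ → ℕ) (p : ℕ) : Prop :=
  ∃ k, 1 ≤ k ∧ k ≤ p ∧ (∀ i, 1 ≤ i → i < k → a i ≤ a (i + 1)) ∧
    ∀ i, k ≤ i → i < p → a (i + 1) ≤ a i

/-- the sequence of the symbolic defect polynomials of the `d`-dimensional complex `Δ` is
asymptotically quasi-unimodal -/
def AsympQuasiUnimodal {n : ℕ} (K : Type*) [Field K] (Δ : Set (Finset (Fin n))) (d : ℕ) : Prop :=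
  ∃ k, 1 ≤ k ∧ ∃ L, ∀ l, L ≤ l → k ∣ l → Unimodal (fun i => sdefect (facetIdeal K Δ i) l) (d - 1)

/-- the complex: all the sets of at most three elements, all the sets of four elements except
`{0,1,2,3}` and `{4,5,6,7}`, and one set of five elements -/
def theComplex : Set (Finset (Fin 8)) :=
  {F | F.card ≤ 3 ∨ (F.card = 4 ∧ F ≠ {0, 1, 2, 3} ∧ F ≠ {4, 5, 6, 7}) ∨ F = {0, 1, 2, 4, 5}}

theorem isComplex : IsComplex theComplex 4 := by
  refine ⟨fun v => Or.inl (by simp), ?_, ?_, ?_⟩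
  · rintro F hF G hG
    have hc := Finset.card_le_card hG
    rcases hF with h | ⟨h1, h2, h3⟩ | h
    · exact Or.inl (hc.trans h)
    · by_cases hG4 : G.card = 4
      · have : G = F := Finset.eq_of_subset_of_card_le hG (by omega)
        rw [this]
        exact Or.inr (Or.inl ⟨h1, h2, h3⟩)
      · exact Or.inl (by omega)
    · subst h
      have h5 : ({0, 1, 2, 4, 5} : Finset (Fin 8)).card = 5 := by decide
      rw [h5] at hc
      by_cases hG5 : G.card = 5
      · exact Or.inr (Or.inr (Finset.eq_of_subset_of_card_le hG (by omega)))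
      · by_cases hG4 : G.card = 4
        · refine Or.inr (Or.inl ⟨hG4, ?_, ?_⟩)
          · rintro rfl
            exact absurd (hG (show (3 : Fin 8) ∈ _ by decide)) (by decide)
          · rintro rfl
            exact absurd (hG (show (6 : Fin 8) ∈ _ by decide)) (by decide)
        · exact Or.inl (by omega)
  · exact ⟨{0, 1, 2, 4, 5}, Or.inr (Or.inr rfl), by decide⟩
  · rintro e ⟨F, hF, hFe⟩
    rcases hF with h | ⟨h, -⟩ | h
    · omega
    · omega
    · rw [h] at hFe
      have h5 : ({0, 1, 2, 4, 5} : Finset (Fin 8)).card = 5 := by decide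
      omega

/-- the faces of dimension `i` -/
def HH (i : ℕ) : Set (Finset (Fin 8)) := {F | F ∈ theComplex ∧ F.card = i + 1}

theorem mem_HH1 {F : Finset (Fin 8)} : F ∈ HH 1 ↔ F.card = 2 :=
  ⟨fun h => h.2, fun h => ⟨Or.inl (by omega), h⟩⟩

theorem mem_HH2 {F : Finset (Fin 8)} : F ∈ HH 2 ↔ F.card = 3 :=
  ⟨fun h => h.2, fun h => ⟨Or.inl (by omega), h⟩⟩

theorem mem_HH3 {F : Finset (Fin 8)} :
    F ∈ HH 3 ↔ F.card = 4 ∧ F ≠ {0, 1, 2, 3} ∧ F ≠ {4, 5, 6, 7} := by
  constructor
  · rintro ⟨h | h | h, hc⟩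
    · omega
    · exact h
    · subst h
      exact absurd hc (by decide)
  · intro h
    exact ⟨Or.inr (Or.inl h), h.1⟩

theorem covers1 {C : Finset (Fin 8)} : Covers (HH 1) C ↔ Cᶜ.card ≤ 1 := by
  constructor
  · intro h
    by_contra hlt
    obtain ⟨T, hT, hTc⟩ := Finset.exists_subset_card_eq (show 2 ≤ Cᶜ.card by omega)
    obtain ⟨v, hv, hvC⟩ := h T (mem_HH1.2 hTc)
    exact (Finset.mem_compl.1 (hT hv)) hvC
  · intro h F hF
    by_contra hne
    push Not at hne
    have := Finset.card_le_card (show F ⊆ Cᶜ from fun v hv => Finset.mem_compl.2 (hne v hv))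
    rw [mem_HH1.1 hF] at this
    omega

theorem covers2 {C : Finset (Fin 8)} : Covers (HH 2) C ↔ Cᶜ.card ≤ 2 := by
  constructor
  · intro h
    by_contra hlt
    obtain ⟨T, hT, hTc⟩ := Finset.exists_subset_card_eq (show 3 ≤ Cᶜ.card by omega)
    obtain ⟨v, hv, hvC⟩ := h T (mem_HH2.2 hTc)
    exact (Finset.mem_compl.1 (hT hv)) hvC
  · intro h F hF
    by_contra hne
    push Not at hne
    have := Finset.card_le_card (show F ⊆ Cᶜ from fun v hv => Finset.mem_compl.2 (hne v hv))
    rw [mem_HH2.1 hF] at this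
    omega

theorem covers3 {C : Finset (Fin 8)} (h : Covers (HH 3) C) :
    Cᶜ.card ≤ 3 ∨ C = {4, 5, 6, 7} ∨ C = {0, 1, 2, 3} := by
  by_contra hne
  push Not at hne
  obtain ⟨h1, h2, h3⟩ := hne
  have hno : ∀ T ⊆ Cᶜ, T.card = 4 → T = {0, 1, 2, 3} ∨ T = {4, 5, 6, 7} := by
    intro T hT hTc
    by_contra hcon
    push Not at hcon
    obtain ⟨v, hv, hvC⟩ := h T (mem_HH3.2 ⟨hTc, hcon⟩)
    exact (Finset.mem_compl.1 (hT hv)) hvC
  obtain ⟨T, hT, hTc⟩ := Finset.exists_subset_card_eq (show 4 ≤ Cᶜ.card by omega)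
  -- `Cᶜ` is not equal to `T`
  have hTne : ∃ x ∈ Cᶜ, x ∉ T := by
    by_contra hcon
    push Not at hcon
    have hCT : Cᶜ = T := Finset.Subset.antisymm hcon hT
    have hC : C = Tᶜ := by rw [← hCT, compl_compl]
    rcases hno T hT hTc with h4 | h4
    · apply h2
      rw [hC, h4]
      decide
    · apply h3
      rw [hC, h4]
      decide
  obtain ⟨x, hxC, hxT⟩ := hTne
  -- exchange an element
  have hex : ∀ y ∈ T, insert x (T.erase y) = {0, 1, 2, 3} ∨
      insert x (T.erase y) = ({4, 5, 6, 7} : Finset (Fin 8)) := by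
    intro y hy
    apply hno
    · intro z hz
      rcases Finset.mem_insert.1 hz with rfl | hz
      · exact hxC
      · exact hT (Finset.mem_of_mem_erase hz)
    · rw [Finset.card_insert_of_notMem (by simp [hxT]), Finset.card_erase_of_mem hy, hTc]
  rcases hno T hT hTc with h4 | h4
  · subst h4
    have h5 := hex 0 (by decide)
    have h6 : ∀ x : Fin 8, x ∉ ({0, 1, 2, 3} : Finset (Fin 8)) →
        ¬ (insert x (({0, 1, 2, 3} : Finset (Fin 8)).erase 0) = {0, 1, 2, 3} ∨
          insert x (({0, 1, 2, 3} : Finset (Fin 8)).erase 0) = {4, 5, 6, 7}) := by decide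
    exact h6 x hxT h5
  · subst h4
    have h5 := hex 4 (by decide)
    have h6 : ∀ x : Fin 8, x ∉ ({4, 5, 6, 7} : Finset (Fin 8)) →
        ¬ (insert x (({4, 5, 6, 7} : Finset (Fin 8)).erase 4) = {0, 1, 2, 3} ∨
          insert x (({4, 5, 6, 7} : Finset (Fin 8)).erase 4) = {4, 5, 6, 7}) := by decide
    exact h6 x hxT h5

theorem covers3_a : Covers (HH 3) {0, 1, 2, 3} := by
  intro F hF
  rw [mem_HH3] at hF
  by_contra hne
  push Not at hne
  have hdec : ∀ v : Fin 8, v ∉ ({0, 1, 2, 3} : Finset (Fin 8)) →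
    v ∈ ({4, 5, 6, 7} : Finset (Fin 8)) := by decide
  have hsub : F ⊆ {4, 5, 6, 7} := fun v hv => hdec v (hne v hv)
  exact hF.2.2 (Finset.eq_of_subset_of_card_le hsub (by rw [hF.1]; decide))

theorem covers3_b : Covers (HH 3) {4, 5, 6, 7} := by
  intro F hF
  rw [mem_HH3] at hF
  by_contra hne
  push Not at hne
  have hdec : ∀ v : Fin 8, v ∉ ({4, 5, 6, 7} : Finset (Fin 8)) →
    v ∈ ({0, 1, 2, 3} : Finset (Fin 8)) := by decide
  have hsub : F ⊆ {0, 1, 2, 3} := fun v hv => hdec v (hne v hv)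
  exact hF.2.1 (Finset.eq_of_subset_of_card_le hsub (by rw [hF.1]; decide))

section

variable {K : Type*} [Field K]

theorem coeff_zero_of_degree {H : Set (Finset (Fin 8))} {c m : ℕ} (hH : ∀ F ∈ H, F.card = c)
    {u : Fin 8 →₀ ℕ} (hu : u.degree < m * c) {f : MvPolynomial (Fin 8) K}
    (hf : f ∈ setIdeal K H ^ m) : coeff u f = 0 := by
  have h1 : setIdeal K H ≤ wtIdeal K (1 : Fin 8 → ℕ) c := by
    unfold setIdeal
    rw [Ideal.span_le]
    rintro _ ⟨F, hF, rfl⟩
    have : monomial (sqf F) (1 : K) ∈ wtIdeal K (1 : Fin 8 → ℕ) c := by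
      rw [monomial_mem_wtIdeal, weight_one_eq]
      unfold sqf
      rw [map_sum]
      simp [hH F hF]
    exact this
  by_contra hne
  have h2 := pow_le_wtIdeal h1 m hf u (mem_support_iff.2 hne)
  rw [weight_one_eq] at h2
  omega

theorem sum_C_add (u : Fin 8 →₀ ℕ) (C : Finset (Fin 8)) :
    ∑ j ∈ C, u j + ∑ j ∈ Cᶜ, u j = u.degree := by
  rw [Finset.sum_add_sum_compl, Finsupp.degree_eq_sum]

theorem sum_le_of (u : Fin 8 →₀ ℕ) (C : Finset (Fin 8)) (M c : ℕ) (hc : C.card ≤ c)
    (hM : ∀ j, u j ≤ M) : ∑ j ∈ C, u j ≤ c * M := by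
  calc ∑ j ∈ C, u j ≤ ∑ _j ∈ C, M := Finset.sum_le_sum fun j _ => hM j
    _ = C.card * M := by simp
    _ ≤ c * M := Nat.mul_le_mul_right _ hc

/-- exponents for the graph -/
noncomputable def u1 (m q : ℕ) (g : Fin 6 → Fin q) : Fin 8 →₀ ℕ :=
  Finsupp.equivFunOnFinite.symm
    (![m - 6 - (g 0 + g 1 + g 2 + g 3 + g 4 + g 5 : ℕ), m - 6 - (g 0 + g 1 + g 2 + g 3 + g 4 + g 5 : ℕ),
      g 0 + 1, g 1 + 1, g 2 + 1, g 3 + 1, g 4 + 1, g 5 + 1] : Fin 8 → ℕ)

/-- exponents for the sets of four elements -/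
noncomputable def u3 (m q : ℕ) (g : Fin 6 → Fin q) : Fin 8 →₀ ℕ :=
  Finsupp.equivFunOnFinite.symm
    (![m / 4 + g 0, m / 4 + g 1, m / 4 + g 2, m - 3 * (m / 4) - (g 0 + g 1 + g 2 : ℕ),
      m / 4 + g 3, m / 4 + g 4, m / 4 + g 5, m - 3 * (m / 4) - (g 3 + g 4 + g 5 : ℕ)] : Fin 8 → ℕ)

theorem degree8 (u : Fin 8 →₀ ℕ) :
    u.degree = u 0 + u 1 + u 2 + u 3 + u 4 + u 5 + u 6 + u 7 := by
  rw [Finsupp.degree_eq_sum, Fin.sum_univ_eight]

theorem lower1 {m q : ℕ} (_hq : 1 ≤ q) (hm : 12 * q ≤ m) :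
    q ^ 6 ≤ sdefect (setIdeal K (HH 1)) m := by
  classical
  have hinj : Function.Injective (u1 m q) := by
    intro g g' h
    have h' := Finsupp.equivFunOnFinite.symm.injective h
    have e2 := congrFun h' 2
    have e3 := congrFun h' 3
    have e4 := congrFun h' 4
    have e5 := congrFun h' 5
    have e6 := congrFun h' 6
    have e7 := congrFun h' 7
    simp at e2 e3 e4 e5 e6 e7
    funext i
    fin_cases i <;> apply Fin.ext <;> assumption
  have hcard : (Finset.univ.image (u1 m q)).card = q ^ 6 := by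
    rw [Finset.card_image_of_injective _ hinj, Finset.card_univ]
    simp
  rw [← hcard]
  have hval : ∀ g : Fin 6 → Fin q, ∃ c a0 a1 a2 a3 a4 a5 : ℕ,
      u1 m q g 0 = c ∧ u1 m q g 1 = c ∧ u1 m q g 2 = a0 + 1 ∧ u1 m q g 3 = a1 + 1 ∧
      u1 m q g 4 = a2 + 1 ∧ u1 m q g 5 = a3 + 1 ∧ u1 m q g 6 = a4 + 1 ∧ u1 m q g 7 = a5 + 1 ∧
      c + (a0 + a1 + a2 + a3 + a4 + a5) + 6 = m ∧ q ≤ c ∧ a0 < q ∧ a1 < q ∧ a2 < q ∧ a3 < q ∧
      a4 < q ∧ a5 < q := by
    intro g
    refine ⟨m - 6 - (g 0 + g 1 + g 2 + g 3 + g 4 + g 5 : ℕ), g 0, g 1, g 2, g 3, g 4, g 5,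
      rfl, rfl, rfl, rfl, rfl, rfl, rfl, rfl, ?_, ?_, (g 0).2, (g 1).2, (g 2).2, (g 3).2, (g 4).2,
      (g 5).2⟩
    · have := (g 0).2; have := (g 1).2; have := (g 2).2; have := (g 3).2; have := (g 4).2
      have := (g 5).2
      omega
    · have := (g 0).2; have := (g 1).2; have := (g 2).2; have := (g 3).2; have := (g 4).2
      have := (g 5).2
      omega
  apply le_sdefect
  · intro u hu C hC
    obtain ⟨g, -, rfl⟩ := Finset.mem_image.1 hu
    obtain ⟨c, a0, a1, a2, a3, a4, a5, e0, e1, e2, e3, e4, e5, e6, e7, hs, hc, h0, h1, h2, h3, h4,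
      h5⟩ := hval g
    have hM : ∀ j, u1 m q g j ≤ c := by
      intro j
      fin_cases j
      · exact e0.le
      · exact e1.le
      · exact e2.le.trans (by omega)
      · exact e3.le.trans (by omega)
      · exact e4.le.trans (by omega)
      · exact e5.le.trans (by omega)
      · exact e6.le.trans (by omega)
      · exact e7.le.trans (by omega)
    have h6 := sum_le_of (u1 m q g) Cᶜ c 1 (covers1.1 hC) hM
    have h7 := sum_C_add (u1 m q g) C
    rw [degree8, e0, e1, e2, e3, e4, e5, e6, e7] at h7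
    omega
  · intro u hu w hw hle
    obtain ⟨g, -, rfl⟩ := Finset.mem_image.1 hu
    obtain ⟨c, a0, a1, a2, a3, a4, a5, e0, e1, e2, e3, e4, e5, e6, e7, hs, hc, h0, h1, h2, h3, h4,
      h5⟩ := hval g
    have k0 := hw ({0}ᶜ) (covers1.2 (by rw [compl_compl]; simp))
    have k1 := hw ({1}ᶜ) (covers1.2 (by rw [compl_compl]; simp))
    have f0 := sum_C_add w {0}
    have f1 := sum_C_add w {1}
    rw [degree8, Finset.sum_singleton] at f0 f1
    have l0 := hle 0
    have l1 := hle 1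
    have l2 := hle 2
    have l3 := hle 3
    have l4 := hle 4
    have l5 := hle 5
    have l6 := hle 6
    have l7 := hle 7
    rw [e0] at l0
    rw [e1] at l1
    rw [e2] at l2
    rw [e3] at l3
    rw [e4] at l4
    rw [e5] at l5
    rw [e6] at l6
    rw [e7] at l7
    ext j
    fin_cases j
    · exact (show w 0 = c by omega).trans e0.symm
    · exact (show w 1 = c by omega).trans e1.symm
    · exact (show w 2 = a0 + 1 by omega).trans e2.symm
    · exact (show w 3 = a1 + 1 by omega).trans e3.symm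
    · exact (show w 4 = a2 + 1 by omega).trans e4.symm
    · exact (show w 5 = a3 + 1 by omega).trans e5.symm
    · exact (show w 6 = a4 + 1 by omega).trans e6.symm
    · exact (show w 7 = a5 + 1 by omega).trans e7.symm
  · intro u hu f hf
    obtain ⟨g, -, rfl⟩ := Finset.mem_image.1 hu
    obtain ⟨c, a0, a1, a2, a3, a4, a5, e0, e1, e2, e3, e4, e5, e6, e7, hs, hc, h0, h1, h2, h3, h4,
      h5⟩ := hval g
    refine coeff_zero_of_degree (c := 2) (fun F hF => mem_HH1.1 hF) ?_ hf
    rw [degree8, e0, e1, e2, e3, e4, e5, e6, e7]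
    omega

theorem lower3 {m q : ℕ} (_hq : 1 ≤ q) (hm : 12 * q ≤ m) (hm' : 27 ≤ m) :
    q ^ 6 ≤ sdefect (setIdeal K (HH 3)) m := by
  classical
  have hinj : Function.Injective (u3 m q) := by
    intro g g' h
    have h' := Finsupp.equivFunOnFinite.symm.injective h
    have e0 := congrFun h' 0
    have e1 := congrFun h' 1
    have e2 := congrFun h' 2
    have e4 := congrFun h' 4
    have e5 := congrFun h' 5
    have e6 := congrFun h' 6
    simp at e0 e1 e2 e4 e5 e6
    funext i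
    fin_cases i <;> apply Fin.ext <;> assumption
  have hcard : (Finset.univ.image (u3 m q)).card = q ^ 6 := by
    rw [Finset.card_image_of_injective _ hinj, Finset.card_univ]
    simp
  rw [← hcard]
  have hval : ∀ g : Fin 6 → Fin q, ∃ a0 a1 a2 a3 b0 b1 b2 b3 : ℕ,
      u3 m q g 0 = a0 ∧ u3 m q g 1 = a1 ∧ u3 m q g 2 = a2 ∧ u3 m q g 3 = a3 ∧
      u3 m q g 4 = b0 ∧ u3 m q g 5 = b1 ∧ u3 m q g 6 = b2 ∧ u3 m q g 7 = b3 ∧
      a0 + a1 + a2 + a3 = m ∧ b0 + b1 + b2 + b3 = m ∧ 3 * a0 ≤ m ∧ 3 * a1 ≤ m ∧ 3 * a2 ≤ m ∧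
      3 * a3 ≤ m ∧ 3 * b0 ≤ m ∧ 3 * b1 ≤ m ∧ 3 * b2 ≤ m ∧ 3 * b3 ≤ m := by
    intro g
    refine ⟨_, _, _, _, _, _, _, _, rfl, rfl, rfl, rfl, rfl, rfl, rfl, rfl, ?_⟩
    have := (g 0).2; have := (g 1).2; have := (g 2).2; have := (g 3).2; have := (g 4).2
    have := (g 5).2
    have e0 : u3 m q g 0 = m / 4 + g 0 := rfl
    have e1 : u3 m q g 1 = m / 4 + g 1 := rfl
    have e2 : u3 m q g 2 = m / 4 + g 2 := rfl
    have e3 : u3 m q g 3 = m - 3 * (m / 4) - (g 0 + g 1 + g 2 : ℕ) := rfl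
    have e4 : u3 m q g 4 = m / 4 + g 3 := rfl
    have e5 : u3 m q g 5 = m / 4 + g 4 := rfl
    have e6 : u3 m q g 6 = m / 4 + g 5 := rfl
    have e7 : u3 m q g 7 = m - 3 * (m / 4) - (g 3 + g 4 + g 5 : ℕ) := rfl
    rw [e0, e1, e2, e3, e4, e5, e6, e7]
    omega
  apply le_sdefect
  · intro u hu C hC
    obtain ⟨g, -, rfl⟩ := Finset.mem_image.1 hu
    obtain ⟨a0, a1, a2, a3, b0, b1, b2, b3, e0, e1, e2, e3, e4, e5, e6, e7, ha, hb, h0, h1, h2, h3,
      h4, h5, h6, h7⟩ := hval g
    rcases covers3 hC with hc | rfl | rfl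
    · have hM : ∀ j, u3 m q g j ≤ m / 3 := by
        intro j
        fin_cases j
        · exact e0.le.trans (by omega)
        · exact e1.le.trans (by omega)
        · exact e2.le.trans (by omega)
        · exact e3.le.trans (by omega)
        · exact e4.le.trans (by omega)
        · exact e5.le.trans (by omega)
        · exact e6.le.trans (by omega)
        · exact e7.le.trans (by omega)
      have h8 := sum_le_of (u3 m q g) Cᶜ (m / 3) 3 hc hM
      have h9 := sum_C_add (u3 m q g) C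
      rw [degree8, e0, e1, e2, e3, e4, e5, e6, e7] at h9
      omega
    · rw [Finset.sum_insert (by decide), Finset.sum_insert (by decide),
        Finset.sum_insert (by decide), Finset.sum_singleton, e4, e5, e6, e7]
      omega
    · rw [Finset.sum_insert (by decide), Finset.sum_insert (by decide),
        Finset.sum_insert (by decide), Finset.sum_singleton, e0, e1, e2, e3]
      omega
  · intro u hu w hw hle
    obtain ⟨g, -, rfl⟩ := Finset.mem_image.1 hu
    obtain ⟨a0, a1, a2, a3, b0, b1, b2, b3, e0, e1, e2, e3, e4, e5, e6, e7, ha, hb, h0, h1, h2, h3,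
      h4, h5, h6, h7⟩ := hval g
    have k0 := hw _ covers3_a
    have k1 := hw _ covers3_b
    rw [Finset.sum_insert (by decide), Finset.sum_insert (by decide),
      Finset.sum_insert (by decide), Finset.sum_singleton] at k0 k1
    have l0 := hle 0
    have l1 := hle 1
    have l2 := hle 2
    have l3 := hle 3
    have l4 := hle 4
    have l5 := hle 5
    have l6 := hle 6
    have l7 := hle 7
    rw [e0] at l0
    rw [e1] at l1
    rw [e2] at l2
    rw [e3] at l3
    rw [e4] at l4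
    rw [e5] at l5
    rw [e6] at l6
    rw [e7] at l7
    ext j
    fin_cases j
    · exact (show w 0 = a0 by omega).trans e0.symm
    · exact (show w 1 = a1 by omega).trans e1.symm
    · exact (show w 2 = a2 by omega).trans e2.symm
    · exact (show w 3 = a3 by omega).trans e3.symm
    · exact (show w 4 = b0 by omega).trans e4.symm
    · exact (show w 5 = b1 by omega).trans e5.symm
    · exact (show w 6 = b2 by omega).trans e6.symm
    · exact (show w 7 = b3 by omega).trans e7.symm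
  · intro u hu f hf
    obtain ⟨g, -, rfl⟩ := Finset.mem_image.1 hu
    obtain ⟨a0, a1, a2, a3, b0, b1, b2, b3, e0, e1, e2, e3, e4, e5, e6, e7, ha, hb, h0, h1, h2, h3,
      h4, h5, h6, h7⟩ := hval g
    refine coeff_zero_of_degree (c := 4) (fun F hF => (mem_HH3.1 hF).1) ?_ hf
    rw [degree8, e0, e1, e2, e3, e4, e5, e6, e7]
    omega

/-- the shape of the minimal exponents for the triples -/
theorem minimal_shape {m : ℕ} (hm : 1 ≤ m) {u : Fin 8 →₀ ℕ} (hu : u ∈ symbExp (HH 2) m)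
    (hmin : ∀ w ∈ symbExp (HH 2) m, w ≤ u → w = u) :
    ∃ (T : Finset (Fin 8)) (t : ℕ), T.card = 3 ∧ (∀ x ∈ T, u x = t) ∧ ∑ x ∈ Tᶜ, u x + t = m := by
  classical
  -- decreasing a positive coordinate leaves the set of exponents
  have htight : ∀ x, 0 < u x → ∃ C : Finset (Fin 8), x ∈ C ∧ Cᶜ.card ≤ 2 ∧ ∑ j ∈ C, u j = m := by
    intro x hx
    by_contra hcon
    push Not at hcon
    have hsub : Finsupp.single x 1 ≤ u := by
      rw [Finsupp.single_le_iff]
      omega
    have hval : ∀ C : Finset (Fin 8), ∑ j ∈ C, (u - Finsupp.single x 1 : Fin 8 →₀ ℕ) j +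
        (if x ∈ C then 1 else 0) = ∑ j ∈ C, u j := by
      intro C
      have h1 : ∑ j ∈ C, u j = ∑ j ∈ C, ((u - Finsupp.single x 1 : Fin 8 →₀ ℕ) j +
          (Finsupp.single x 1 : Fin 8 →₀ ℕ) j) := by
        refine Finset.sum_congr rfl fun j _ => ?_
        have := hsub j
        rw [Finsupp.tsub_apply]
        omega
      rw [h1, Finset.sum_add_distrib]
      congr 1
      simp only [Finsupp.single_apply]
      rw [Finset.sum_ite_eq]
    have hmem : u - Finsupp.single x 1 ∈ symbExp (HH 2) m := by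
      intro C hC
      have h1 := hu C hC
      have h2 := hval C
      by_cases hxC : x ∈ C
      · rw [if_pos hxC] at h2
        have h3 := hcon C hxC (covers2.1 hC)
        omega
      · rw [if_neg hxC] at h2
        omega
    have h4 := DFunLike.congr_fun (hmin _ hmem tsub_le_self) x
    rw [Finsupp.tsub_apply, Finsupp.single_eq_same] at h4
    omega
  have hge : ∀ C : Finset (Fin 8), Cᶜ.card ≤ 2 → m ≤ ∑ j ∈ C, u j := fun C hC =>
    hu C (covers2.2 hC)
  -- a tight set of six elements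
  obtain ⟨P, hP, hPm⟩ : ∃ P : Finset (Fin 8), P.card = 6 ∧ ∑ j ∈ P, u j = m := by
    obtain ⟨x, hx⟩ : ∃ x, 0 < u x := by
      by_contra hcon
      push Not at hcon
      have h1 := hge Finset.univ (by simp)
      rw [Finset.sum_eq_zero (fun j _ => Nat.le_zero.1 (hcon j))] at h1
      omega
    obtain ⟨C, -, hC, hCm⟩ := htight x hx
    have hCc : 6 ≤ C.card := by
      have := Finset.card_compl C
      have h8 : C.card ≤ 8 := by simpa using Finset.card_le_univ C
      rw [Fintype.card_fin] at this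
      omega
    obtain ⟨P, hPC, hP⟩ := Finset.exists_subset_card_eq hCc
    refine ⟨P, hP, le_antisymm ?_ (hge P ?_)⟩
    · rw [← hCm]
      exact Finset.sum_le_sum_of_subset hPC
    · rw [Finset.card_compl, Fintype.card_fin, hP]
  -- the maximum on `P`
  obtain ⟨i0, hi0, hmax⟩ := Finset.exists_max_image P (fun x => u x)
    (Finset.card_pos.1 (by omega))
  have hpos : 0 < u i0 := by
    by_contra h0
    have : ∑ j ∈ P, u j = 0 := Finset.sum_eq_zero fun j hj => by
      have := hmax j hj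
      omega
    omega
  have hswap : ∀ (C : Finset (Fin 8)) (i j : Fin 8), Cᶜ.card ≤ 2 → ∑ x ∈ C, u x = m → i ∈ C →
      j ∉ C → u i ≤ u j := by
    intro C i j hC hCm hi hj
    have h1 := hge (insert j (C.erase i)) (by
      have h1 : (insert j (C.erase i)).card = C.card := by
        rw [Finset.card_insert_of_notMem (by simp [hj]), Finset.card_erase_of_mem hi]
        have : 0 < C.card := Finset.card_pos.2 ⟨i, hi⟩
        omega
      rw [Finset.card_compl, h1, ← Finset.card_compl]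
      exact hC)
    rw [Finset.sum_insert (by simp [hj])] at h1
    have h2 := Finset.add_sum_erase C (fun x => u x) hi
    omega
  have hPc : Pᶜ.card ≤ 2 := by rw [Finset.card_compl, Fintype.card_fin, hP]
  have hout : ∀ j, j ∉ P → u j = u i0 := by
    intro j hj
    have h1 := hswap P i0 j hPc hPm hi0 hj
    obtain ⟨C, hjC, hC, hCm⟩ := htight j (by omega)
    obtain ⟨i, hiP, hiC⟩ : ∃ i ∈ P, i ∉ C := by
      by_contra hcon
      push Not at hcon
      have h2 : insert j P ⊆ C := Finset.insert_subset hjC hcon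
      have h3 := Finset.sum_le_sum_of_subset (f := fun x => u x) h2
      rw [Finset.sum_insert hj, hPm, hCm] at h3
      omega
    have h2 := hswap C j i hC hCm hjC hiC
    have h3 := hmax i hiP
    omega
  refine ⟨insert i0 Pᶜ, u i0, ?_, ?_, ?_⟩
  · rw [Finset.card_insert_of_notMem (by simp [hi0]), Finset.card_compl, Fintype.card_fin, hP]
  · intro x hx
    rcases Finset.mem_insert.1 hx with rfl | hx
    · rfl
    · exact hout x (Finset.mem_compl.1 hx)
  · have h1 : (insert i0 Pᶜ)ᶜ = P.erase i0 := by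
      ext x
      simp only [Finset.mem_compl, Finset.mem_insert, Finset.mem_erase, not_or, not_not]
    rw [h1, ← hPm]
    exact Finset.sum_erase_add _ _ hi0

/-- the candidates for the minimal exponents -/
noncomputable def cand (m : ℕ) (p : Equiv.Perm (Fin 8) × (Fin 5 → Fin (m + 1))) : Fin 8 →₀ ℕ :=
  Finsupp.equivFunOnFinite.symm fun x =>
    if h : (p.1 x : ℕ) < 5 then (p.2 ⟨p.1 x, h⟩ : ℕ) else m - ∑ y, (p.2 y : ℕ)

theorem exists_cand {m : ℕ} {u : Fin 8 →₀ ℕ} {T : Finset (Fin 8)} {t : ℕ} (hT : T.card = 3)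
    (hTt : ∀ x ∈ T, u x = t) (hs : ∑ x ∈ Tᶜ, u x + t = m) : ∃ p, cand m p = u := by
  classical
  have hcard : Fintype.card {x // x ∉ T} = Fintype.card {y : Fin 8 // (y : ℕ) < 5} := by
    have h1 : Fintype.card {x // x ∉ T} = 5 := by
      rw [Fintype.card_subtype_compl, Fintype.card_fin, Fintype.card_coe, hT]
    rw [h1]
    rfl
  let e : {x // x ∉ T} ≃ {y : Fin 8 // (y : ℕ) < 5} := Fintype.equivOfCardEq hcard
  let σ : Equiv.Perm (Fin 8) := e.extendSubtype
  have hσ1 : ∀ x (hx : x ∉ T), σ x = e ⟨x, hx⟩ := fun x hx => e.extendSubtype_apply_of_mem x hx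
  have hσ2 : ∀ x, x ∉ T → (σ x : ℕ) < 5 := fun x hx => e.extendSubtype_mem x hx
  have hσ3 : ∀ x, x ∈ T → ¬ (σ x : ℕ) < 5 := fun x hx =>
    e.extendSubtype_not_mem x (by simpa using hx)
  have hle : ∀ x, x ∉ T → u x < m + 1 := by
    intro x hx
    have := Finset.single_le_sum (f := fun x => u x) (s := Tᶜ) (fun _ _ => Nat.zero_le _)
      (Finset.mem_compl.2 hx)
    omega
  -- the positions
  let pos : Fin 5 → Fin 8 := fun y => σ.symm (Fin.castLE (by omega) y)
  have hpos : ∀ y, pos y ∉ T := by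
    intro y hy
    apply hσ3 _ hy
    simp [pos]
  let g : Fin 5 → Fin (m + 1) := fun y => ⟨u (pos y), hle _ (hpos y)⟩
  have hsum : ∑ y, (g y : ℕ) = ∑ x ∈ Tᶜ, u x := by
    symm
    refine Finset.sum_bij' (fun x hx => (⟨σ x, hσ2 x (Finset.mem_compl.1 hx)⟩ : Fin 5))
      (fun y _ => pos y) (fun _ _ => Finset.mem_univ _)
      (fun y _ => Finset.mem_compl.2 (hpos y)) ?_ ?_ ?_
    · intro x hx
      have : (Fin.castLE (by omega) (⟨σ x, hσ2 x (Finset.mem_compl.1 hx)⟩ : Fin 5) : Fin 8) =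
        σ x := Fin.ext rfl
      simp only [pos, this, Equiv.symm_apply_apply]
    · intro y _
      apply Fin.ext
      simp [pos]
    · intro x hx
      have : (Fin.castLE (by omega) (⟨σ x, hσ2 x (Finset.mem_compl.1 hx)⟩ : Fin 5) : Fin 8) =
        σ x := Fin.ext rfl
      simp only [g, pos, this, Equiv.symm_apply_apply]
  refine ⟨(σ, g), ?_⟩
  ext x
  show (if h : (σ x : ℕ) < 5 then (g ⟨σ x, h⟩ : ℕ) else m - ∑ y, (g y : ℕ)) = u x
  by_cases hx : x ∈ T
  · rw [dif_neg (hσ3 x hx), hsum, hTt x hx]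
    omega
  · rw [dif_pos (hσ2 x hx)]
    have : (Fin.castLE (by omega) (⟨σ x, hσ2 x hx⟩ : Fin 5) : Fin 8) = σ x := Fin.ext rfl
    simp only [g, pos, this, Equiv.symm_apply_apply]

theorem upper2 {m : ℕ} (hm : 1 ≤ m) : sdefect (setIdeal K (HH 2)) m ≤ 40320 * (m + 1) ^ 5 := by
  classical
  let A : Finset (Fin 8 →₀ ℕ) := (Finset.univ.image (cand m)).filter fun u => u ∈ symbExp (HH 2) m
  have hA : A.card ≤ 40320 * (m + 1) ^ 5 := by
    calc A.card ≤ (Finset.univ.image (cand m)).card := Finset.card_filter_le _ _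
      _ ≤ (Finset.univ : Finset (Equiv.Perm (Fin 8) × (Fin 5 → Fin (m + 1)))).card :=
        Finset.card_image_le
      _ = 40320 * (m + 1) ^ 5 := by
        rw [Finset.card_univ, Fintype.card_prod, Fintype.card_perm, Fintype.card_fin,
          Fintype.card_fun, Fintype.card_fin, Fintype.card_fin]
        rfl
  refine (sdefect_le A ?_ ?_).trans hA
  · intro u hu
    exact (Finset.mem_filter.1 hu).2
  · intro w hw
    -- a minimal exponent below `w`
    obtain ⟨u, hu, hmin⟩ := (InvImage.wf (fun u : Fin 8 →₀ ℕ => u.degree)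
      (Nat.lt_wfRel.wf)).has_min {u | u ∈ symbExp (HH 2) m ∧ u ≤ w} ⟨w, hw, le_rfl⟩
    have hmin' : ∀ v ∈ symbExp (HH 2) m, v ≤ u → v = u := by
      intro v hv hvu
      have h1 := hmin v ⟨hv, hvu.trans hu.2⟩
      have h2 : ¬ v.degree < u.degree := h1
      have h3 : (u - v) + v = u := tsub_add_cancel_of_le hvu
      have h4 := congrArg Finsupp.degree h3
      rw [map_add] at h4
      have h5 : (u - v).degree = 0 := by omega
      rw [(Finsupp.degree_eq_zero_iff _).1 h5, zero_add] at h3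
      exact h3
    obtain ⟨T, t, hT, hTt, hs⟩ := minimal_shape hm hu.1 hmin'
    obtain ⟨p, hp⟩ := exists_cand hT hTt hs
    exact ⟨u, Finset.mem_filter.2 ⟨Finset.mem_image.2 ⟨p, Finset.mem_univ _, hp⟩, hu.1⟩, hu.2⟩

theorem big (m : ℕ) (hm : 12 * (40320 * 24 ^ 5 + 1) ≤ m) :
    40320 * (m + 1) ^ 5 < (m / 12) ^ 6 := by
  set q := m / 12 with hq
  have h1 : 40320 * 24 ^ 5 + 1 ≤ q := (Nat.le_div_iff_mul_le (by norm_num)).2 (by omega)
  have h2 : m + 1 ≤ 24 * q := by omega
  calc 40320 * (m + 1) ^ 5 ≤ 40320 * (24 * q) ^ 5 :=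
        Nat.mul_le_mul_left _ (Nat.pow_le_pow_left h2 5)
    _ = (40320 * 24 ^ 5) * q ^ 5 := by rw [mul_pow]; ring
    _ < q * q ^ 5 := Nat.mul_lt_mul_of_pos_right (by omega) (by positivity)
    _ = q ^ 6 := by ring

end

/-- The four-dimensional complex `theComplex` on `8` vertices is such that, over every field, for
all sufficiently large `m` the second coefficient of the `m`-th symbolic defect polynomial is
smaller than the first one and than the third one.  So the sequence of its symbolic defect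
polynomials is not asymptotically quasi-unimodal. -/
theorem result (K : Type*) [Field K] :
    IsComplex theComplex 4 ∧
    (∃ M, ∀ m, M ≤ m →
      sdefect (facetIdeal K theComplex 2) m < sdefect (facetIdeal K theComplex 1) m ∧
      sdefect (facetIdeal K theComplex 2) m < sdefect (facetIdeal K theComplex 3) m) ∧
    ¬ AsympQuasiUnimodal K theComplex 4 := by
  have key : ∃ M, ∀ m, M ≤ m →
      sdefect (facetIdeal K theComplex 2) m < sdefect (facetIdeal K theComplex 1) m ∧
      sdefect (facetIdeal K theComplex 2) m < sdefect (facetIdeal K theComplex 3) m := by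
    refine ⟨12 * (40320 * 24 ^ 5 + 1), fun m hm => ?_⟩
    have h1 : 1 ≤ m / 12 := (Nat.le_div_iff_mul_le (by norm_num)).2 (by omega)
    have h2 : 12 * (m / 12) ≤ m := Nat.mul_div_le _ _
    have h3 := big m hm
    have h4 := upper2 (K := K) (m := m) (by omega)
    have h5 := lower1 (K := K) h1 h2
    have h6 := lower3 (K := K) h1 h2 (by omega)
    exact ⟨h4.trans_lt (h3.trans_le h5), h4.trans_lt (h3.trans_le h6)⟩
  refine ⟨isComplex, key, ?_⟩
  rintro ⟨k, hk, L, hL⟩
  obtain ⟨M, hM⟩ := key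
  obtain ⟨j, hj1, hj2, hj3, hj4⟩ := hL (k * (L + M)) (by nlinarith) ⟨_, rfl⟩
  have h := hM (k * (L + M)) (by nlinarith)
  beta_reduce at hj3 hj4
  have hj : j = 1 ∨ j = 2 ∨ j = 3 := by omega
  rcases hj with rfl | rfl | rfl
  · exact absurd (hj4 2 (by omega) (by omega)) (not_le.2 h.2)
  · exact absurd (hj3 1 le_rfl (by omega)) (not_le.2 h.1)
  · exact absurd (hj3 1 le_rfl (by omega)) (not_le.2 h.1)

end Pool.Agent.Results.MP_2a0133_al.NotUnimodal
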